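import Pool.Agent.helper9.TH.Spec

/-!
# Row S7a: the complement is abelian when the Sylow subgroup is maximal
-/

namespace Pool.Agent.helper32.TH

open Pool.Agent.helper9.TH
open scoped Pointwise commutatorElement

universe u

theorem mem_of_le_of_sup_top {G : Type u} [Group G] (K P Q : Subgroup G) (hQK : Q ≤ K)
    (hPK : P ⊓ K = ⊥) (hn : P ≤ Subgroup.normalizer (Q : Set G)) (htop : Q ⊔ P = ⊤) : K ≤ Q := by
  intro k hk
  have hk' : k ∈ ((Q ⊔ P : Subgroup G) : Set G) := by rw [htop]; trivial
  rw [Subgroup.coe_mul_of_right_le_normalizer_left Q P hn] at hk'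
  obtain ⟨a, ha, b, hb, hab⟩ := Set.mem_mul.1 hk'
  have hbK : b ∈ K := by
    have : b = a⁻¹ * k := by rw [← hab]; group
    rw [this]
    exact K.mul_mem (K.inv_mem (hQK ha)) hk
  have hb1 : b ∈ P ⊓ K := ⟨hb, hbK⟩
  rw [hPK, Subgroup.mem_bot] at hb1
  rw [← hab, hb1, mul_one]
  exact ha

theorem S7a : S7a_stmt.{u} := by
  intro p G _ _ P K hp hP hmax hKn hKc hKi
  classical
  have : Fact p.Prime := ⟨hp⟩
  have := hKn
  obtain ⟨hPp, hPi⟩ := hP
  obtain ⟨k, hk⟩ := hKi
  obtain ⟨a, ha⟩ := IsPGroup.iff_card.1 hPp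
  have hPK : P ⊓ K = ⊥ := by
    apply Subgroup.inf_eq_bot_of_coprime
    rw [ha]
    exact (hKc.symm).pow_left a
  -- the order of `P`
  have hcard : Nat.card P = p ^ k := by
    have h1 : Nat.card K * K.index = Nat.card P * P.index := by
      rw [Subgroup.card_mul_index, Subgroup.card_mul_index]
    rw [hk, ha] at h1
    have hc2 : (p ^ k).Coprime P.index :=
      Nat.Coprime.pow_left k ((Nat.Prime.coprime_iff_not_dvd hp).2 hPi)
    have d1 : p ^ k ∣ p ^ a := by
      apply hc2.dvd_of_dvd_mul_right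
      rw [← h1]
      exact dvd_mul_left _ _
    have d2 : p ^ a ∣ p ^ k := by
      have hc3 : (p ^ a).Coprime (Nat.card K) := (hKc.symm).pow_left a
      exact hc3.dvd_of_dvd_mul_left (by rw [h1]; exact dvd_mul_right _ _)
    rw [ha]
    exact Nat.dvd_antisymm d2 d1
  by_cases hK1 : K = ⊥
  · subst hK1
    intro x hx y hy
    rw [Subgroup.mem_bot] at hx hy
    rw [hx, hy]
  -- a subgroup normalized by `P`, inside `K`
  have key : ∀ Q : Subgroup G, Q ≤ K → P ≤ Subgroup.normalizer (Q : Set G) → Q ≠ ⊥ → Q = K := by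
    intro Q hQK hn hQ1
    have htop : Q ⊔ P = ⊤ := by
      by_contra hne
      have h1 := hmax (Q ⊔ P) le_sup_right hne
      have h2 : Q ≤ P := by rw [← h1]; exact le_sup_left
      apply hQ1
      rw [← le_bot_iff, ← hPK]
      exact le_inf h2 hQK
    exact le_antisymm hQK (mem_of_le_of_sup_top K P Q hQK hPK hn htop)
  have hcK : Nat.card K ≠ 1 := fun h => hK1 (Subgroup.card_eq_one.1 h)
  obtain ⟨q, hq, hqK⟩ := Nat.exists_prime_and_dvd hcK
  have : Fact q.Prime := ⟨hq⟩
  -- `K` is a `q`-group
  have hKq : IsPGroup q K := by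
    obtain ⟨Q0⟩ : Nonempty (Sylow q K) := inferInstance
    have hQ0 : (Q0 : Subgroup K) ≠ ⊥ := Sylow.ne_bot_of_dvd_card Q0 hqK
    let QG : Subgroup G := (Q0 : Subgroup K).map K.subtype
    have hfr : Subgroup.normalizer (QG : Set G) ⊔ K = ⊤ := Sylow.normalizer_sup_eq_top Q0
    have hdvd : p ^ k ∣ Nat.card (Subgroup.normalizer (QG : Set G)) := by
      have h1 : K.relIndex (Subgroup.normalizer (QG : Set G)) = p ^ k := by
        rw [← hk, ← Subgroup.relIndex_sup_right, hfr, Subgroup.relIndex_top_right]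
      rw [← h1]
      exact Subgroup.relIndex_dvd_card _ _
    obtain ⟨R, hR⟩ := Sylow.exists_subgroup_card_pow_prime p hdvd
    let RG : Subgroup G := R.map (Subgroup.normalizer (QG : Set G)).subtype
    have hRG : Nat.card RG = p ^ k := by
      rw [← hR]
      exact Subgroup.card_map_of_injective (Subgroup.subtype_injective _)
    have hRN : RG ≤ Subgroup.normalizer (QG : Set G) := Subgroup.map_subtype_le R
    obtain ⟨S, hS⟩ := (IsPGroup.of_card hRG).exists_le_sylow
    obtain ⟨T, hT⟩ := hPp.exists_le_sylow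
    have hTP : Nat.card T = p ^ k := by
      have h1 : Nat.card T ∣ Nat.card P * P.index := by
        rw [Subgroup.card_mul_index]; exact Subgroup.card_subgroup_dvd_card _
      obtain ⟨b, hb⟩ := IsPGroup.iff_card.1 T.isPGroup'
      have hb' : Nat.card T = p ^ b := hb
      have h2 : Nat.card T ∣ Nat.card P := by
        apply Nat.Coprime.dvd_of_dvd_mul_right _ h1
        rw [hb']
        exact Nat.Coprime.pow_left b ((Nat.Prime.coprime_iff_not_dvd hp).2 hPi)
      have h3 : Nat.card P ∣ Nat.card T := Subgroup.card_dvd_of_le hT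
      rw [← hcard]
      exact Nat.dvd_antisymm h2 h3
    have hST : Nat.card S = Nat.card T := Nat.card_congr (Sylow.equiv S T).toEquiv
    have hPT : P = T := Subgroup.eq_of_le_of_card_ge hT (by rw [hcard]; exact hTP.le)
    have hRS : RG = S := Subgroup.eq_of_le_of_card_ge hS (by
      rw [hRG]; exact (hST.trans hTP).le)
    obtain ⟨g, hg⟩ := MulAction.exists_smul_eq G S T
    have hPR : ∀ x ∈ P, g⁻¹ * x * g ∈ RG := by
      intro x hx
      have hx2 : x ∈ (g • S : Sylow p G) := by
        rw [hg]
        have : x ∈ (T : Subgroup G) := by rw [← hPT]; exact hx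
        exact this
      have hx3 : x ∈ MulAut.conj g • (S : Subgroup G) := hx2
      rw [Subgroup.mem_pointwise_smul_iff_inv_smul_mem] at hx3
      rw [hRS]
      have : (MulAut.conj g)⁻¹ • x = g⁻¹ * x * g := by
        rw [← map_inv]
        simp [MulAut.smul_def, MulAut.conj_apply]
      rw [this] at hx3
      exact hx3
    -- conjugate `QG`
    let Q : Subgroup G := QG.map (MulAut.conj g).toMonoidHom
    have hQmem : ∀ x, x ∈ Q ↔ g⁻¹ * x * g ∈ QG := by
      intro x
      constructor
      · rintro ⟨y, hy, rfl⟩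
        have : g⁻¹ * ((MulAut.conj g).toMonoidHom y) * g = y := by
          simp [MulAut.conj_apply]
          group
        rw [this]; exact hy
      · intro h
        refine ⟨g⁻¹ * x * g, h, ?_⟩
        simp [MulAut.conj_apply]
        group
    have hQGK : QG ≤ K := Subgroup.map_subtype_le _
    have hQK : Q ≤ K := by
      intro x hx
      have h1 := hKn.conj_mem _ (hQGK ((hQmem x).1 hx)) g
      have h2 : g * (g⁻¹ * x * g) * g⁻¹ = x := by group
      rwa [h2] at h1
    have hPQ : P ≤ Subgroup.normalizer (Q : Set G) := by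
      intro x hx
      rw [Subgroup.mem_normalizer_iff]
      intro h
      have hN := hRN (hPR x hx)
      rw [Subgroup.mem_normalizer_iff] at hN
      rw [hQmem, hQmem, hN (g⁻¹ * h * g)]
      have : g⁻¹ * x * g * (g⁻¹ * h * g) * (g⁻¹ * x * g)⁻¹ = g⁻¹ * (x * h * x⁻¹) * g := by group
      rw [this]
    have hQne : Q ≠ ⊥ := by
      intro h
      apply hQ0
      have h1 : QG = ⊥ := by
        rw [Subgroup.map_eq_bot_iff_of_injective _ (MulEquiv.injective _)] at h
        exact h
      rwa [Subgroup.map_eq_bot_iff_of_injective _ (Subgroup.subtype_injective K)] at h1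
    have hQ := key Q hQK hPQ hQne
    rw [← hQ]
    have hQGq : IsPGroup q QG := Q0.isPGroup'.map K.subtype
    exact hQGq.map _
  -- the commutator subgroup
  have : Nontrivial K := (Subgroup.nontrivial_iff_ne_bot K).2 hK1
  have : Group.IsNilpotent K := hKq.isNilpotent
  have hlt : commutator K < ⊤ := Group.IsSolvable.commutator_lt_top_of_nontrivial K
  have hcn : (⁅K, K⁆ : Subgroup G).Normal := Subgroup.commutator_normal K K
  have hle : (⁅K, K⁆ : Subgroup G) ≤ K := Subgroup.commutator_le_left K K
  have hbot : (⁅K, K⁆ : Subgroup G) = ⊥ := by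
    by_contra hne
    have h1 := key ⁅K, K⁆ hle (by
      rw [Subgroup.normalizer_eq_top_iff.2 hcn]; exact le_top) hne
    apply hlt.ne
    have h2 : (commutator K).map K.subtype = (⊤ : Subgroup K).map K.subtype := by
      rw [Subgroup.map_subtype_commutator, h1, ← MonoidHom.range_eq_map, Subgroup.range_subtype]
    exact Subgroup.map_injective (Subgroup.subtype_injective K) h2
  intro x hx y hy
  have h1 : ⁅x, y⁆ ∈ (⁅K, K⁆ : Subgroup G) := Subgroup.commutator_mem_commutator hx hy
  rw [hbot, Subgroup.mem_bot] at h1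
  exact commutatorElement_eq_one_iff_mul_comm.1 h1

end Pool.Agent.helper32.TH
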